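import Pool.Agent.V5helper35.CA.Stm2

set_option autoImplicit false
set_option linter.unusedSectionVars false

namespace Pool.Agent.V5helper31.CA

open Pool.Agent.V5helper35.CA
open Pool.Agent.V5helper35.CA.NC

/-- sums of a periodic function over a period -/
lemma sum_shift (m : ℕ) (P : ℕ → ℤ) (hP : ∀ r, P (r + m) = P r) (k : ℕ) :
    ∑ r ∈ Finset.range m, P (r + k) = ∑ r ∈ Finset.range m, P r := by
  induction k with
  | zero => rfl
  | succ k ih =>
    rw [← ih]
    have h1 := Finset.sum_range_succ (fun r => P (r + k)) m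
    have h2 := Finset.sum_range_succ' (fun r => P (r + k)) m
    rw [h1] at h2
    have h3 : P (m + k) = P (0 + k) := by rw [zero_add, add_comm, hP]
    rw [h3] at h2
    have h4 := add_right_cancel h2
    rw [h4]
    refine Finset.sum_congr rfl fun r _ => ?_
    congr 1
    ring

variable {n : ℕ}

lemma mul_apply_sum (f g : NC ℤ n) (u : List (Fin n)) :
    (f * g) u = ∑ k ∈ Finset.range (u.length + 1), f (u.take k) * g (u.drop k) := by
  induction u generalizing f with
  | nil => simp
  | cons i w ih =>
    rw [mul_cons, ih, List.length_cons, Finset.sum_range_succ' _ (w.length + 1)]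
    simp only [List.take_zero, List.drop_zero, List.take_succ_cons, List.drop_succ_cons, der_apply]
    ring

/-- the cyclic sum -/
def cyc (v : List (Fin n)) (f : NC ℤ n) : ℤ := ∑ r ∈ Finset.range v.length, f (v.rotate r)

lemma cyc_congr {v : List (Fin n)} {f g : NC ℤ n} (h : Eqd v.length f g) : cyc v f = cyc v g :=
  Finset.sum_congr rfl fun r _ => h _ (by rw [List.length_rotate])

lemma cyc_mul_comm (v : List (Fin n)) (f g : NC ℤ n) : cyc v (f * g) = cyc v (g * f) := by
  unfold cyc
  have e1 : ∑ r ∈ Finset.range v.length, (f * g) (v.rotate r) =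
      ∑ k ∈ Finset.range (v.length + 1), ∑ r ∈ Finset.range v.length,
        f ((v.rotate r).take k) * g ((v.rotate r).drop k) := by
    rw [Finset.sum_comm]
    refine Finset.sum_congr rfl fun r _ => ?_
    rw [mul_apply_sum, List.length_rotate]
  have e2 : ∑ r ∈ Finset.range v.length, (g * f) (v.rotate r) =
      ∑ k ∈ Finset.range (v.length + 1), ∑ r ∈ Finset.range v.length,
        g ((v.rotate r).take k) * f ((v.rotate r).drop k) := by
    rw [Finset.sum_comm]
    refine Finset.sum_congr rfl fun r _ => ?_
    rw [mul_apply_sum, List.length_rotate]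
  rw [e1, e2, ← Finset.sum_range_reflect (fun k => ∑ r ∈ Finset.range v.length,
        g ((v.rotate r).take k) * f ((v.rotate r).drop k))]
  refine Finset.sum_congr rfl fun k hk => ?_
  rw [Finset.mem_range] at hk
  have hk' : v.length + 1 - 1 - k = v.length - k := by omega
  rw [hk']
  have h1 := sum_shift v.length
    (fun r => g ((v.rotate r).take (v.length - k)) * f ((v.rotate r).drop (v.length - k)))
    (fun r => by
      have : v.rotate (r + v.length) = v.rotate r := by
        rw [add_comm, ← List.rotate_rotate, List.rotate_length]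
      simp only [this]) k
  rw [← h1]
  refine Finset.sum_congr rfl fun r _ => ?_
  have h2 : v.rotate (r + k) = (v.rotate r).drop k ++ (v.rotate r).take k := by
    rw [← List.rotate_rotate, List.rotate_eq_drop_append_take (by rw [List.length_rotate]; omega)]
  have h3 : ((v.rotate r).drop k).length = v.length - k := by
    rw [List.length_drop, List.length_rotate]
  simp only [h2]
  rw [← h3, List.take_left', List.drop_left', mul_comm] <;> rfl

lemma cyc_conj (v : List (Fin n)) (g w : FreeGroup (Fin n)) :
    cyc v (mag ℤ (g * w * g⁻¹)) = cyc v (mag ℤ w) := by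
  rw [map_mul, cyc_mul_comm, map_mul, ← mul_assoc, mag_inv_mul, one_mul]

lemma cyc_of_eqd (v : List (Fin n)) {M N h : NC ℤ n} (h0 : h [] = 1)
    (he : Eqd v.length (M * h) (h * N)) : cyc v M = cyc v N := by
  obtain ⟨k, _, hk1, hk2⟩ := exists_inv v.length h0
  have e1 : Eqd v.length M (h * N * k) := by
    have a1 : Eqd v.length (M * (h * k)) (M * 1) := Eqd.mul (Eqd.refl _ _) hk1
    rw [mul_one, ← mul_assoc] at a1
    exact a1.symm.trans (Eqd.mul he (Eqd.refl _ _))
  rw [cyc_congr e1, mul_assoc, cyc_mul_comm, mul_assoc]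
  have e2 : Eqd v.length (N * (k * h)) (N * 1) := Eqd.mul (Eqd.refl _ _) hk2
  rw [mul_one] at e2
  exact cyc_congr e2

lemma syl_append (s t : List (Fin n × ℤ)) : syl (s ++ t) = syl s * syl t := by
  simp [syl]

lemma syl_cons (p : Fin n × ℤ) (t : List (Fin n × ℤ)) :
    syl (p :: t) = FreeGroup.of p.1 ^ p.2 * syl t := by
  simp [syl]

lemma exists_syl (w : FreeGroup (Fin n)) : ∃ s, w = syl s := by
  induction w using FreeGroup.induction_on with
  | C1 => exact ⟨[], rfl⟩
  | of i => exact ⟨[(i, 1)], by simp [syl]⟩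
  | inv_of i _ => exact ⟨[(i, -1)], by simp [syl]⟩
  | mul u v hu hv =>
    obtain ⟨s, hs⟩ := hu
    obtain ⟨t, ht⟩ := hv
    exact ⟨s ++ t, by rw [syl_append, hs, ht]⟩

lemma chain_of (s : List (Fin n × ℤ))
    (h : ∀ a b x y, s = a ++ x :: y :: b → x.1 ≠ y.1) : (s.map Prod.fst).IsChain (· ≠ ·) := by
  induction s with
  | nil => exact List.isChain_nil
  | cons x t ih =>
    cases t with
    | nil => exact List.isChain_singleton _
    | cons y t =>
      rw [List.map_cons, List.map_cons, List.isChain_cons_cons]
      refine ⟨h [] t x y rfl, ?_⟩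
      rw [← List.map_cons]
      exact ih fun a b x' y' he => h (x :: a) b x' y' (by rw [he]; rfl)

/-- `s` is a shortest list of syllables of a conjugate of `w` -/
def Mini (w : FreeGroup (Fin n)) (s : List (Fin n × ℤ)) : Prop :=
  (∃ g, g * w * g⁻¹ = syl s) ∧ ∀ t, (∃ g, g * w * g⁻¹ = syl t) → s.length ≤ t.length

lemma exists_mini (w : FreeGroup (Fin n)) : ∃ s, Mini w s := by
  classical
  have hex : ∃ m : ℕ, ∃ s : List (Fin n × ℤ), s.length = m ∧ ∃ g, g * w * g⁻¹ = syl s := by
    obtain ⟨s, hs⟩ := exists_syl w
    exact ⟨_, s, rfl, 1, by rw [← hs]; group⟩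
  obtain ⟨s, hs, hg⟩ := Nat.find_spec hex
  refine ⟨s, hg, fun t ht => ?_⟩
  rw [hs]
  exact Nat.find_min' hex ⟨t, rfl, ht⟩

lemma Mini.ne_zero {w : FreeGroup (Fin n)} {s : List (Fin n × ℤ)} (h : Mini w s) :
    (s.map Prod.snd).prod ≠ 0 := by
  refine List.prod_ne_zero ?_
  intro h0
  rw [List.mem_map] at h0
  obtain ⟨p, hp, hp0⟩ := h0
  obtain ⟨a, b, rfl⟩ := List.append_of_mem hp
  have := h.2 (a ++ b) (by
    obtain ⟨g, hg⟩ := h.1
    refine ⟨g, ?_⟩
    rw [hg, syl_append, syl_append, syl_cons, hp0, zpow_zero, one_mul])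
  simp only [List.length_append, List.length_cons] at this
  omega

lemma Mini.chain {w : FreeGroup (Fin n)} {s : List (Fin n × ℤ)} (h : Mini w s) :
    (s.map Prod.fst).IsChain (· ≠ ·) := by
  refine chain_of s fun a b x y he hxy => ?_
  subst he
  have := h.2 (a ++ (x.1, x.2 + y.2) :: b) (by
    obtain ⟨g, hg⟩ := h.1
    refine ⟨g, ?_⟩
    rw [hg, syl_append, syl_append, syl_cons, syl_cons, syl_cons, ← hxy, zpow_add]
    simp only [mul_assoc])
  simp only [List.length_append, List.length_cons] at this
  omega

lemma Mini.rotate {w : FreeGroup (Fin n)} {s : List (Fin n × ℤ)} (h : Mini w s) (r : ℕ) :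
    Mini w (s.rotate r) := by
  induction r with
  | zero => rwa [List.rotate_zero]
  | succ r ih =>
    rw [← List.rotate_rotate]
    revert ih
    generalize s.rotate r = t
    intro ih
    cases t with
    | nil => simpa using ih
    | cons p t =>
      rw [List.rotate_cons_succ, List.rotate_zero]
      refine ⟨?_, fun u hu => ?_⟩
      · obtain ⟨g, hg⟩ := ih.1
        refine ⟨(FreeGroup.of p.1 ^ p.2)⁻¹ * g, ?_⟩
        have e1 : (FreeGroup.of p.1 ^ p.2)⁻¹ * g * w * ((FreeGroup.of p.1 ^ p.2)⁻¹ * g)⁻¹ =
            (FreeGroup.of p.1 ^ p.2)⁻¹ * (g * w * g⁻¹) * FreeGroup.of p.1 ^ p.2 := by group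
        rw [e1, hg, syl_cons, syl_append, syl_cons]
        have e2 : syl ([] : List (Fin n × ℤ)) = 1 := rfl
        rw [e2, mul_one, inv_mul_cancel_left]
      · have := ih.2 u hu
        simpa using this

lemma mag_of_long (i : Fin n) (u : List (Fin n)) (hu : 2 ≤ u.length) :
    mag ℤ (FreeGroup.of i) u = 0 := by
  rw [mag_of, NC.add_apply, NC.one_apply, X, if_neg, if_neg, add_zero]
  · rintro rfl; simp at hu
  · rintro rfl; simp at hu

theorem t_INN1 : S_INN1 := by
  intro hpat n i w hw
  obtain ⟨s, hs⟩ := exists_mini w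
  have key : ∀ v : List (Fin n), cyc v (mag ℤ (syl s)) = cyc v (mag ℤ (FreeGroup.of i)) := by
    intro v
    obtain ⟨g, hg⟩ := hs.1
    rw [← hg, cyc_conj]
    obtain ⟨h, h0, he⟩ := hw v.length
    exact cyc_of_eqd v h0 he
  have hi : mag ℤ (syl s) [i] = 1 := by
    have := key [i]
    simp only [cyc, List.length_singleton, Finset.sum_range_one, List.rotate_zero] at this
    rw [this, mag_of_single, if_pos rfl]
  rcases Nat.lt_or_ge s.length 2 with hl | hl
  · have hl1 : s.length ≤ [i].length := by rw [List.length_singleton]; omega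
    have h1 := hpat n s [i] hl1 (List.isChain_singleton _)
    rw [hi] at h1
    split_ifs at h1 with h2
    · match s, h2 with
      | [(j, e)], h2 =>
        simp only [List.map_cons, List.map_nil, List.cons.injEq, and_true] at h2
        simp only [List.map_cons, List.map_nil, List.prod_cons, List.prod_nil, mul_one] at h1
        subst h2
        subst h1
        obtain ⟨g, hg⟩ := hs.1
        refine ⟨g⁻¹, ?_⟩
        have e2 : syl [(i, (1 : ℤ))] = FreeGroup.of i := by simp [syl]
        rw [e2] at hg
        rw [← hg]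
        group
    · exact absurd h1 one_ne_zero
  · exfalso
    have h1 := key (s.map Prod.fst)
    have h2 : cyc (s.map Prod.fst) (mag ℤ (FreeGroup.of i)) = 0 :=
      Finset.sum_eq_zero fun r _ => mag_of_long i _ (by rw [List.length_rotate, List.length_map]; exact hl)
    rw [h2] at h1
    have h3 : cyc (s.map Prod.fst) (mag ℤ (syl s)) =
        ∑ r ∈ Finset.range (s.map Prod.fst).length,
          if (s.map Prod.fst).rotate r = s.map Prod.fst then (s.map Prod.snd).prod else 0 := by
      refine Finset.sum_congr rfl fun r _ => ?_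
      refine hpat n s _ (by rw [List.length_rotate, List.length_map]) ?_
      rw [← List.map_rotate]
      exact (hs.rotate r).chain
    rw [h3, Finset.sum_ite, Finset.sum_const, Finset.sum_const_zero, add_zero, nsmul_eq_mul] at h1
    rcases mul_eq_zero.mp h1 with h4 | h4
    · have h5 : (0 : ℕ) ∈ Finset.filter
          (fun r => (s.map Prod.fst).rotate r = s.map Prod.fst)
          (Finset.range (s.map Prod.fst).length) := by
        rw [Finset.mem_filter, Finset.mem_range, List.length_map]
        exact ⟨by omega, List.rotate_zero _⟩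
      have h6 := Finset.card_pos.mpr ⟨_, h5⟩
      have h7 : (Finset.filter
          (fun r => (s.map Prod.fst).rotate r = s.map Prod.fst)
          (Finset.range (s.map Prod.fst).length)).card = 0 := by exact_mod_cast h4
      omega
    · exact hs.ne_zero h4

end Pool.Agent.V5helper31.CA
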